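import Pool.Agent.Helper72.LSr.N1
import Pool.Agent.Helper72.LSr.C0

/-!
# LR-I1: deletion of a vertex, neighbourhoods
-/

namespace Pool.Agent.Helper2.LSr

open Finset
open scoped Classical
open Pool.Agent.Helper72.LSr

variable {V : Type} (G : SimpleGraph V) (S : Finset V)

theorem card_erase_int {v : V} (hv : v ∈ S) : (((S.erase v).card : ℕ) : ℤ) = S.card - 1 := by
  have h1 := card_erase_of_mem hv
  have h2 : 0 < S.card := card_pos.2 ⟨v, hv⟩
  omega

theorem K_two_erase {v : V} (hv : v ∈ S) :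
    K G (S.erase v) 2 = K G S 2 - (nb G S v).card := by
  have h := K_erase G hv 1
  rw [K_one] at h
  have h' : K G S 2 = K G (S.erase v) 2 + (nb G S v).card := h
  linarith

theorem Phi_erase (k A B i : ℕ) {v : V} (hv : v ∈ S) :
    Phi k A B (i + 1) G (S.erase v) = Phi k A B (i + 1) G S + Yr k A B i G S v := by
  have h1 : K G S (i + 1 + 1) = K G (S.erase v) (i + 1 + 1) + K G (nb G S v) (i + 1) :=
    K_erase G hv (i + 1)
  unfold Phi Yr Vl th nu
  rw [card_erase_int S hv, K_two_erase G S hv, h1]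
  rw [show i + 1 + 2 = i + 3 from rfl, show i + 1 + 1 = i + 2 from rfl]
  ring

theorem rS_erase (k A B : ℕ) {v : V} (hv : v ∈ S) :
    rS k A B G (S.erase v) = rS k A B G S + Dv k A B G S v := by
  unfold rS Dv rho th nu
  rw [card_erase_int S hv, K_two_erase G S hv]
  ring

theorem gS_erase (k A B : ℕ) {v : V} (hv : v ∈ S) :
    gS k A B G (S.erase v) = gS k A B G S - (Dv k A B G S v - 1) := by
  unfold gS Dv gg th nu
  rw [card_erase_int S hv, K_two_erase G S hv]
  ring

theorem gS_nb (k A B : ℕ) (v : V) : gS k A B G (nb G S v) = Yv k (A + 1) B G S v := by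
  unfold gS Yv gg th nu
  rw [es3_sA, EE_sA]
  ring

theorem MS_nb (k A B : ℕ) (v : V) : MS k A B (nb G S v) = Dv k (A + 1) B G S v := by
  unfold MS Dv Mm nu
  rw [EE_sA]
  ring

theorem rS_nb (k A B : ℕ) (v : V) :
    rS k A B G (nb G S v) = Dv k (A + 1) B G S v - Yv k (A + 1) B G S v := by
  unfold rS Dv Yv rho th nu
  rw [es3_sA, EE_sA]
  ring

theorem Yr_eq (k A B j : ℕ) (v : V) :
    Yr k (A + 1) B (j + 1) G S v
      = es k A B (j + 1) * Yv k (A + 1) B G S v - Phi k A B (j + 1) G (nb G S v) := by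
  unfold Yr Phi Yv Vl th nu
  rw [es3_sA, EE_sA, show j + 1 + 2 = (j + 2) + 1 from rfl, show j + 1 + 1 = (j + 1) + 1 from rfl,
    es_sA, es_sA]
  ring

end Pool.Agent.Helper2.LSr
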